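import Mathlib
import Pool.Agent.MP_7e0f10_lc.Defs

section

/-! Elementary plane geometry used in the locking argument. -/

namespace Pool.Agent.MP_7e0f10_lc

/-- Cross product of two plane vectors. -/
def cross (u v : ℂ) : ℝ := u.re * v.im - u.im * v.re

/-- Dot product of two plane vectors. -/
def dot (u v : ℂ) : ℝ := u.re * v.re + u.im * v.im

lemma continuous_cross : Continuous fun x : ℂ × ℂ => cross x.1 x.2 := by
  unfold cross; fun_prop

lemma continuous_dot : Continuous fun x : ℂ × ℂ => dot x.1 x.2 := by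
  unfold dot; fun_prop

@[fun_prop]
lemma Continuous.cross' {X : Type*} [TopologicalSpace X] {f g : X → ℂ} (hf : Continuous f)
    (hg : Continuous g) : Continuous fun x => cross (f x) (g x) :=
  continuous_cross.comp (hf.prodMk hg)

@[fun_prop]
lemma Continuous.dot' {X : Type*} [TopologicalSpace X] {f g : X → ℂ} (hf : Continuous f)
    (hg : Continuous g) : Continuous fun x => dot (f x) (g x) :=
  continuous_dot.comp (hf.prodMk hg)

/-- `τ` is not on the segment from `0` to `a`. -/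
def Off (τ a : ℂ) : Prop := ∀ s : ℝ, 0 ≤ s → s ≤ 1 → τ ≠ (s : ℂ) * a

lemma Off.of_mul {w τ a : ℂ} (h : Off (w * τ) (w * a)) : Off τ a := by
  intro s h0 h1 e
  apply h s h0 h1
  rw [e]; ring

lemma off_of_not_mem {z x y : ℂ} (h : z ∉ segment ℝ x y) : Off (z - x) (y - x) := by
  intro s h0 h1 e
  apply h
  rw [segment_eq_image']
  refine ⟨s, ⟨h0, h1⟩, ?_⟩
  simp only [Complex.real_smul]
  rw [← e]; ring

lemma not_off {τ a : ℂ} (ha : 0 < dot a a) (hc : cross a τ = 0) (h0 : 0 ≤ dot a τ)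
    (h1 : dot a τ ≤ dot a a) : ¬ Off τ a := by
  intro h
  apply h (dot a τ / dot a a) (div_nonneg h0 ha.le) ((div_le_one ha).2 h1)
  have ha' : dot a a ≠ 0 := ha.ne'
  apply Complex.ext
  · simp only [Complex.mul_re, Complex.ofReal_re, Complex.ofReal_im, zero_mul, sub_zero]
    field_simp
    unfold dot cross at *
    linear_combination (-a.im) * hc
  · simp only [Complex.mul_im, Complex.ofReal_re, Complex.ofReal_im, zero_mul, add_zero]
    field_simp
    unfold dot cross at *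
    linear_combination (a.re) * hc

lemma dot_self_pos_of_cross_left {a b : ℂ} (h : 0 < cross a b) : 0 < dot a a := by
  unfold dot cross at *
  by_contra hn
  have h1 : a.re = 0 := by nlinarith [sq_nonneg a.re, sq_nonneg a.im]
  have h2 : a.im = 0 := by nlinarith [sq_nonneg a.re, sq_nonneg a.im]
  rw [h1, h2] at h; simp at h

lemma dot_self_pos_of_cross_right {a b : ℂ} (h : 0 < cross a b) : 0 < dot b b := by
  unfold dot cross at *
  by_contra hn
  have h1 : b.re = 0 := by nlinarith [sq_nonneg b.re, sq_nonneg b.im]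
  have h2 : b.im = 0 := by nlinarith [sq_nonneg b.re, sq_nonneg b.im]
  rw [h1, h2] at h; simp at h

/-- A point weakly inside a wedge, near the hinge and off both arms, is strictly inside. -/
lemma wedge_strict {a b τ : ℂ} (hab : 0 < cross a b) (h1 : 0 ≤ cross a τ) (h2 : 0 ≤ cross τ b)
    (ha : dot a τ ≤ dot a a) (hb : dot b τ ≤ dot b b) (oa : Off τ a) (ob : Off τ b) :
    0 < cross a τ ∧ 0 < cross τ b := by
  have haa := dot_self_pos_of_cross_left hab
  have hbb := dot_self_pos_of_cross_right hab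
  constructor
  · rcases h1.lt_or_eq with h | h
    · exact h
    · exfalso
      refine not_off haa h.symm ?_ ha oa
      have key : dot a τ * cross a b = cross τ b * dot a a + cross a τ * dot a b := by
        unfold dot cross; ring
      rw [← h] at key
      have : 0 ≤ dot a τ * cross a b := by
        rw [key, zero_mul, add_zero]; exact mul_nonneg h2 haa.le
      exact nonneg_of_mul_nonneg_left this hab
  · rcases h2.lt_or_eq with h | h
    · exact h
    · exfalso
      have h' : cross b τ = 0 := by unfold cross at *; linarith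
      refine not_off hbb h' ?_ hb ob
      have key : dot b τ * cross a b = cross a τ * dot b b + cross τ b * dot a b := by
        unfold dot cross; ring
      rw [← h] at key
      have : 0 ≤ dot b τ * cross a b := by
        rw [key, zero_mul, add_zero]; exact mul_nonneg h1 hbb.le
      exact nonneg_of_mul_nonneg_left this hab

/-- A point of an acute wedge makes an acute angle with the first arm. -/
lemma wedge_cone_left {a b τ : ℂ} (hab : 0 < cross a b) (h1 : 0 ≤ cross a τ) (h2 : 0 ≤ cross τ b)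
    (hk : cross a b ≤ 2 * dot a b) : cross a τ ≤ 2 * dot a τ := by
  have haa := dot_self_pos_of_cross_left hab
  have key : dot a τ * cross a b = cross τ b * dot a a + cross a τ * dot a b := by
    unfold dot cross; ring
  have : cross a τ * cross a b ≤ 2 * dot a τ * cross a b := by
    have := mul_le_mul_of_nonneg_left hk h1
    have := mul_nonneg h2 haa.le
    nlinarith
  exact le_of_mul_le_mul_right this hab

/-- A point of an acute wedge makes an acute angle with the second arm. -/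
lemma wedge_cone_right {a b τ : ℂ} (hab : 0 < cross a b) (h1 : 0 ≤ cross a τ) (h2 : 0 ≤ cross τ b)
    (hk : cross a b ≤ 2 * dot a b) : cross τ b ≤ 2 * dot b τ := by
  have hbb := dot_self_pos_of_cross_right hab
  have key : dot b τ * cross a b = cross a τ * dot b b + cross τ b * dot a b := by
    unfold dot cross; ring
  have : cross τ b * cross a b ≤ 2 * dot b τ * cross a b := by
    have := mul_le_mul_of_nonneg_left hk h2
    have := mul_nonneg h1 hbb.le
    nlinarith
  exact le_of_mul_le_mul_right this hab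

/-- If `a - z` is as long as `a` (of squared length 4) and `z` is short and makes an acute angle
with `a`, then `dot a z = 0`. -/
lemma dot_eq_zero_of_norm {a z : ℂ} (ha : dot a a = 4) (hz : dot (a - z) (a - z) = 4)
    (h0 : 0 ≤ dot a z) (h1 : dot a z < 1) (hc : |cross a z| ≤ 2 * dot a z) : dot a z = 0 := by
  have e1 : 2 * dot a z = dot z z := by
    unfold dot at *
    simp only [Complex.sub_re, Complex.sub_im] at hz
    linarith
  have e2 : dot a a * dot z z = dot a z ^ 2 + cross a z ^ 2 := by unfold dot cross; ring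
  have e3 : cross a z ^ 2 ≤ (2 * dot a z) ^ 2 := by
    rw [← sq_abs]; exact pow_le_pow_left₀ (abs_nonneg _) hc 2
  rw [ha, ← e1] at e2
  nlinarith

lemma eq_zero_of_dot_cross {a z : ℂ} (ha : dot a a = 4) (h1 : dot a z = 0) (h2 : cross a z = 0) :
    z = 0 := by
  have e2 : dot a a * dot z z = dot a z ^ 2 + cross a z ^ 2 := by unfold dot cross; ring
  rw [ha, h1, h2] at e2
  unfold dot at e2
  apply Complex.ext
  · simp only [Complex.zero_re]; nlinarith [sq_nonneg z.re, sq_nonneg z.im]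
  · simp only [Complex.zero_im]; nlinarith [sq_nonneg z.re, sq_nonneg z.im]

/-- Both ends of `c d` strictly on one side of the line `a b`: the segments are disjoint. -/
lemma disjoint_of_side {a b c d : ℂ} (h : 0 < cross (b - a) (c - a) * cross (b - a) (d - a)) :
    Disjoint (segment ℝ a b) (segment ℝ c d) := by
  rw [Set.disjoint_left]
  intro z hz1 hz2
  rw [segment_eq_image'] at hz1 hz2
  obtain ⟨s, -, rfl⟩ := hz1
  obtain ⟨t, ⟨ht0, ht1⟩, e⟩ := hz2
  have hre := congrArg Complex.re e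
  have him := congrArg Complex.im e
  simp only [Complex.real_smul, Complex.add_re, Complex.mul_re, Complex.ofReal_re, Complex.sub_re,
    Complex.ofReal_im, Complex.sub_im, zero_mul, sub_zero, Complex.add_im, Complex.mul_im,
    add_zero] at hre him
  have key : (1 - t) * cross (b - a) (c - a) + t * cross (b - a) (d - a) = 0 := by
    unfold cross
    simp only [Complex.sub_re, Complex.sub_im]
    linear_combination (b.re - a.re) * him - (b.im - a.im) * hre
  set X := cross (b - a) (c - a)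
  set Y := cross (b - a) (d - a)
  rcases pos_and_pos_or_neg_and_neg_of_mul_pos h with ⟨hx, hy⟩ | ⟨hx, hy⟩
  · rcases ht0.lt_or_eq with h0 | h0
    · nlinarith [mul_nonneg (sub_nonneg.2 ht1) hx.le, mul_pos h0 hy]
    · rw [← h0] at key; linarith
  · rcases ht0.lt_or_eq with h0 | h0
    · nlinarith [mul_nonneg (sub_nonneg.2 ht1) (neg_pos.2 hx).le, mul_pos h0 (neg_pos.2 hy)]
    · rw [← h0] at key; linarith

/-- Two segments with a common end that are not parallel meet only there. -/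
lemma inter_subset_of_cross {a b c : ℂ} (h : cross (b - a) (c - a) ≠ 0) :
    segment ℝ a b ∩ segment ℝ b c ⊆ {b} := by
  rintro z ⟨hz1, hz2⟩
  rw [segment_eq_image'] at hz1 hz2
  obtain ⟨s, -, e1⟩ := hz1
  obtain ⟨t, -, e⟩ := hz2
  rw [← e1] at e
  have hre := congrArg Complex.re e
  have him := congrArg Complex.im e
  simp only [Complex.real_smul, Complex.add_re, Complex.mul_re, Complex.ofReal_re, Complex.sub_re,
    Complex.ofReal_im, Complex.sub_im, zero_mul, sub_zero, Complex.add_im, Complex.mul_im,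
    add_zero] at hre him
  have key : t * cross (b - a) (c - a) = 0 := by
    unfold cross
    simp only [Complex.sub_re, Complex.sub_im]
    linear_combination (b.re - a.re) * him - (b.im - a.im) * hre
  have ht : t = 0 := by
    rcases mul_eq_zero.1 key with h' | h'
    · exact h'
    · exact absurd h' h
  rw [Set.mem_singleton_iff, ← e1, ← e, ht]
  simp

end Pool.Agent.MP_7e0f10_lc

end

section

/-! The interlocked seven-link chain, described by its link vectors. -/

namespace Pool.Agent.MP_7e0f10_lc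

open Filter Topology Set

/-- Link vectors of the limiting self-touching configuration. -/
noncomputable def D : Fin 7 → ℂ :=
  ![-2, 2, -1 - Complex.I, 3 + 2 * Complex.I, -4 - Complex.I, 2, -1]

/-- Joint 1 seen from joint 5. -/
def t5 (d : Fin 7 → ℂ) : ℂ := -(d 1 + d 2 + d 3 + d 4)
/-- Joint 0 seen from joint 6. -/
def t6 (d : Fin 7 → ℂ) : ℂ := -(d 0 + d 1 + d 2 + d 3 + d 4 + d 5)
/-- Joint 6 seen from joint 2. -/
def t2 (d : Fin 7 → ℂ) : ℂ := d 2 + d 3 + d 4 + d 5
/-- Joint 7 seen from joint 1. -/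
def t1 (d : Fin 7 → ℂ) : ℂ := d 1 + d 2 + d 3 + d 4 + d 5 + d 6

/-- Consequences of simplicity. -/
def Free (d : Fin 7 → ℂ) : Prop :=
  Off (d 6) (-d 5) ∧ Off (t6 d) (d 6) ∧ Off (t6 d) (-d 5) ∧ Off (t5 d) (d 5) ∧
    Off (t5 d) (-d 4) ∧ Off (t2 d) (-d 1) ∧ Off (t2 d) (d 2) ∧ Off (t1 d) (d 1)

lemma Free.of_mul {w : ℂ} {d : Fin 7 → ℂ} (h : Free fun j => w * d j) : Free d := by
  obtain ⟨h1, h2, h3, h4, h5, h6, h7, h8⟩ := h
  refine ⟨Off.of_mul (w := w) ?_, Off.of_mul (w := w) ?_, Off.of_mul (w := w) ?_,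
    Off.of_mul (w := w) ?_, Off.of_mul (w := w) ?_, Off.of_mul (w := w) ?_,
    Off.of_mul (w := w) ?_, Off.of_mul (w := w) ?_⟩
  · convert h1 using 1; ring
  · convert h2 using 1; unfold t6; ring
  · convert h3 using 1
    · unfold t6; ring
    · ring
  · convert h4 using 1; unfold t5; ring
  · convert h5 using 1
    · unfold t5; ring
    · ring
  · convert h6 using 1
    · unfold t2; ring
    · ring
  · convert h7 using 1; unfold t2; ring
  · convert h8 using 1; unfold t1; ring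

/-- The eight signed quantities that stay positive near the limiting configuration. -/
def g (d : Fin 7 → ℂ) : Fin 8 → ℝ :=
  ![cross (d 6) (-d 5), cross (d 6) (t6 d), cross (t6 d) (-d 5), cross (d 5) (t5 d),
    cross (t5 d) (-d 4), cross (-d 1) (t2 d), cross (t2 d) (d 2), cross (t1 d) (d 1)]

/-- The invariant. -/
def Inv (d : Fin 7 → ℂ) : Prop := ∀ k, 0 < g d k

/-- Quantities that are positive at the limiting configuration. -/
def nr (d : Fin 7 → ℂ) : Fin 17 → ℝ :=
  ![dot (-d 5) (d 6), dot (-d 5) (-d 5) - dot (-d 5) (d 6),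
    dot (d 1) (t1 d), dot (d 1) (d 1) - dot (d 1) (t1 d),
    dot (d 6) (d 6) - dot (d 6) (t6 d), dot (-d 5) (-d 5) - dot (-d 5) (t6 d),
    dot (d 5) (d 5) - dot (d 5) (t5 d), dot (-d 4) (-d 4) - dot (-d 4) (t5 d),
    dot (-d 1) (-d 1) - dot (-d 1) (t2 d), dot (d 2) (d 2) - dot (d 2) (t2 d),
    cross (d 5) (-d 4), cross (-d 1) (d 2),
    2 * dot (d 6) (-d 5) - cross (d 6) (-d 5), 2 * dot (d 5) (-d 4) - cross (d 5) (-d 4),
    2 * dot (-d 1) (d 2) - cross (-d 1) (d 2),
    1 - dot (d 5) (t5 d - t6 d), 1 - dot (-d 1) (t2 d)]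

/-- Open conditions that hold near the limiting configuration. -/
def Near (d : Fin 7 → ℂ) : Prop := ∀ k, 0 < nr d k

lemma continuous_t5 : Continuous t5 := by unfold t5; fun_prop
lemma continuous_t6 : Continuous t6 := by unfold t6; fun_prop
lemma continuous_t2 : Continuous t2 := by unfold t2; fun_prop
lemma continuous_t1 : Continuous t1 := by unfold t1; fun_prop

attribute [fun_prop] continuous_t5 continuous_t6 continuous_t2 continuous_t1

lemma continuous_g (k : Fin 8) : Continuous fun d => g d k := by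
  fin_cases k <;> simp only [g, Fin.zero_eta, Fin.mk_one, Fin.reduceFinMk, Matrix.cons_val] <;>
    fun_prop

lemma continuous_nr (k : Fin 17) : Continuous fun d => nr d k := by
  fin_cases k <;> simp only [nr, Fin.zero_eta, Fin.mk_one, Fin.reduceFinMk, Matrix.cons_val] <;>
    fun_prop

lemma near_D : Near D := by
  intro k
  fin_cases k <;> simp [nr, D, t1, t2, t5, t6, dot, cross] <;> norm_num

lemma eventually_near : ∀ᶠ d in 𝓝 D, Near d := by
  unfold Near
  rw [eventually_all]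
  intro k
  exact (continuous_nr k).continuousAt.eventually (lt_mem_nhds (near_D k))

/-- For free configurations near the limit, weak inequalities are strict. -/
lemma inv_of_nonneg {d : Fin 7 → ℂ} (hn : Near d) (hf : Free d) (h : ∀ k, 0 ≤ g d k) : Inv d := by
  obtain ⟨f1, f2, f3, f4, f5, f6, f7, f8⟩ := hf
  have n0 := hn 0; have n1 := hn 1; have n2 := hn 2; have n3 := hn 3; have n4 := hn 4
  have n5 := hn 5; have n6 := hn 6; have n7 := hn 7; have n8 := hn 8; have n9 := hn 9
  have n10 := hn 10; have n11 := hn 11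
  have g0 := h 0; have g1 := h 1; have g2 := h 2; have g3 := h 3; have g4 := h 4
  have g5 := h 5; have g6 := h 6; have g7 := h 7
  simp only [nr, g, Matrix.cons_val] at n0 n1 n2 n3 n4 n5 n6 n7 n8 n9 n10 n11 g0 g1 g2 g3 g4 g5 g6 g7
  have s0 : 0 < cross (d 6) (-d 5) := by
    rcases g0.lt_or_eq with h' | h'
    · exact h'
    · exfalso
      refine not_off (a := -d 5) (by linarith) ?_ n0.le (by linarith) f1
      unfold cross at *; linarith
  have s7 : 0 < cross (t1 d) (d 1) := by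
    rcases g7.lt_or_eq with h' | h'
    · exact h'
    · exfalso
      refine not_off (a := d 1) (by linarith) ?_ n2.le (by linarith) f8
      unfold cross at *; linarith
  obtain ⟨s1, s2⟩ := wedge_strict s0 g1 g2 (by linarith) (by linarith) f2 f3
  obtain ⟨s3, s4⟩ := wedge_strict n10 g3 g4 (by linarith) (by linarith) f4 f5
  obtain ⟨s5, s6⟩ := wedge_strict n11 g5 g6 (by linarith) (by linarith) f6 f7
  intro k
  fin_cases k <;> simp only [g, Fin.zero_eta, Fin.mk_one, Fin.reduceFinMk, Matrix.cons_val] <;>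
    assumption

/-- Quantities that are non-negative on the closure of the invariant region. -/
def cl (d : Fin 7 → ℂ) : Fin 8 → ℝ :=
  ![cross (t6 d) (-d 5), 2 * dot (-d 5) (t6 d) - cross (t6 d) (-d 5),
    cross (d 5) (t5 d), 2 * dot (d 5) (t5 d) - cross (d 5) (t5 d),
    cross (-d 1) (t2 d), 2 * dot (-d 1) (t2 d) - cross (-d 1) (t2 d),
    cross (d 6) (-d 5), cross (t1 d) (d 1)]

/-- Closed conditions. -/
def Cl (d : Fin 7 → ℂ) : Prop := ∀ k, 0 ≤ cl d k

lemma continuous_cl (k : Fin 8) : Continuous fun d => cl d k := by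
  fin_cases k <;> simp only [cl, Fin.zero_eta, Fin.mk_one, Fin.reduceFinMk, Matrix.cons_val] <;>
    fun_prop

lemma cl_of_inv {d : Fin 7 → ℂ} (hn : Near d) (h : Inv d) : Cl d := by
  have n10 := hn 10; have n11 := hn 11; have n12 := hn 12; have n13 := hn 13; have n14 := hn 14
  have g0 := h 0; have g1 := h 1; have g2 := h 2; have g3 := h 3; have g4 := h 4
  have g5 := h 5; have g6 := h 6; have g7 := h 7
  simp only [nr, g, Matrix.cons_val] at n10 n11 n12 n13 n14 g0 g1 g2 g3 g4 g5 g6 g7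
  have c1 := wedge_cone_right g0 g1.le g2.le (by linarith)
  have c3 := wedge_cone_left n10 g3.le g4.le (by linarith)
  have c5 := wedge_cone_left n11 g5.le g6.le (by linarith)
  intro k
  fin_cases k <;> simp only [cl, Fin.zero_eta, Fin.mk_one, Fin.reduceFinMk, Matrix.cons_val] <;>
    linarith

/-- With the limiting lengths, the closed conditions force the three contacts. -/
lemma locked {d : Fin 7 → ℂ} (hn : Near d) (h : Cl d) (l0 : dot (d 0) (d 0) = 4)
    (l1 : dot (d 1) (d 1) = 4) (l5 : dot (d 5) (d 5) = 4) :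
    d 5 = -d 0 ∧ d 1 = d 5 ∧ d 1 + d 2 + d 3 + d 4 = 0 ∧ cross (d 6) (d 5) = 0 := by
  have n15 := hn 15; have n16 := hn 16
  have c0 := h 0; have c1 := h 1; have c2 := h 2; have c3 := h 3; have c4 := h 4
  have c5 := h 5; have c6 := h 6; have c7 := h 7
  simp only [nr, cl, Matrix.cons_val] at n15 n16 c0 c1 c2 c3 c4 c5 c6 c7
  have e1 : dot (d 5) (t5 d - t6 d) = dot (d 5) (t5 d) + dot (-d 5) (t6 d) := by
    unfold dot; simp; ring
  have e2 : cross (d 5) (t5 d - t6 d) = cross (d 5) (t5 d) - cross (t6 d) (-d 5) := by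
    unfold cross; simp; ring
  have e3 : d 5 - (t5 d - t6 d) = -d 0 := by unfold t5 t6; ring
  have z1 : dot (d 5) (t5 d - t6 d) = 0 := by
    refine dot_eq_zero_of_norm l5 ?_ (by linarith) (by linarith) ?_
    · rw [e3, ← l0]; unfold dot; simp
    · rw [abs_le]; constructor <;> linarith
  have z5 : t5 d = 0 := eq_zero_of_dot_cross l5 (by linarith) (by linarith)
  have l5' : dot (-d 5) (-d 5) = 4 := by rw [← l5]; unfold dot; simp
  have z6 : t6 d = 0 := by
    refine eq_zero_of_dot_cross l5' (by linarith) ?_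
    have : cross (t6 d) (-d 5) = 0 := by linarith
    unfold cross at *; linarith
  have hS : d 1 + d 2 + d 3 + d 4 = 0 := by unfold t5 at z5; exact neg_eq_zero.1 z5
  have l1' : dot (-d 1) (-d 1) = 4 := by rw [← l1]; unfold dot; simp
  have e4 : -d 1 - t2 d = -d 5 := by unfold t2; linear_combination (-1 : ℂ) * hS
  have z2' : dot (-d 1) (t2 d) = 0 := by
    refine dot_eq_zero_of_norm l1' ?_ (by linarith) (by linarith) ?_
    · rw [e4, l5']
    · rw [abs_le]; constructor <;> linarith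
  have z2 : t2 d = 0 := eq_zero_of_dot_cross l1' z2' (by linarith)
  have h15 : d 1 = d 5 := by rw [z2] at e4; linear_combination (-1 : ℂ) * e4
  refine ⟨?_, h15, hS, ?_⟩
  · rw [z5, z6] at e3; linear_combination e3
  · have : t1 d = d 5 + d 6 := by unfold t1; linear_combination hS
    rw [this, h15] at c7
    unfold cross at *
    simp only [Complex.add_re, Complex.add_im, Complex.neg_re, Complex.neg_im] at c6 c7
    linarith

end Pool.Agent.MP_7e0f10_lc

end

section

/-! No straight segment of angle space leaves the limiting configuration; compactness. -/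

namespace Pool.Agent.MP_7e0f10_lc

open Filter Topology Set

/-- State space: length factors and direction offsets of the seven links. -/
abbrev St := (Fin 7 → ℝ) × (Fin 7 → ℝ)

/-- The limiting state. -/
def x0 : St := (fun _ => 1, 0)

/-- Link vectors of a state. -/
noncomputable def dv (x : St) : Fin 7 → ℂ :=
  fun j => D j * (x.1 j : ℂ) * Complex.exp ((x.2 j : ℂ) * Complex.I)

@[fun_prop]
lemma continuous_dv : Continuous dv := by unfold dv; fun_prop

lemma dv_x0 : dv x0 = D := by ext j; simp [dv, x0]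

lemma deriv_step {c0 c1 c2 c3 : ℂ} {v1 v2 v3 : ℝ}
    (h : ∀ t ∈ Icc (0 : ℝ) 1, c0 + c1 * Complex.exp (((t * v1 : ℝ) : ℂ) * Complex.I) +
      c2 * Complex.exp (((t * v2 : ℝ) : ℂ) * Complex.I) +
      c3 * Complex.exp (((t * v3 : ℝ) : ℂ) * Complex.I) = 0) :
    ∀ t ∈ Icc (0 : ℝ) 1, 0 + c1 * v1 * Complex.exp (((t * v1 : ℝ) : ℂ) * Complex.I) +
      c2 * v2 * Complex.exp (((t * v2 : ℝ) : ℂ) * Complex.I) +
      c3 * v3 * Complex.exp (((t * v3 : ℝ) : ℂ) * Complex.I) = 0 := by
  intro t ht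
  have hd : ∀ v : ℝ, HasDerivAt (fun s : ℝ => Complex.exp (((s * v : ℝ) : ℂ) * Complex.I))
      (Complex.exp (((t * v : ℝ) : ℂ) * Complex.I) * (v * Complex.I)) t := by
    intro v
    have h1 : HasDerivAt (fun s : ℝ => ((s * v : ℝ) : ℂ)) ((v : ℝ) : ℂ) t := by
      have := ((hasDerivAt_id t).mul_const v).ofReal_comp
      simpa using this
    exact (h1.mul_const Complex.I).cexp
  have h1 := (((((hd v1).const_mul c1).const_add c0).add ((hd v2).const_mul c2)).add
    ((hd v3).const_mul c3)).hasDerivWithinAt (s := Icc (0 : ℝ) 1)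
  have h2 : HasDerivWithinAt (fun _ : ℝ => (0 : ℂ)) 0 (Icc (0 : ℝ) 1) t :=
    (hasDerivAt_const t (0 : ℂ)).hasDerivWithinAt
  have h3 := h2.congr_of_mem (f₁ := fun s : ℝ =>
      c0 + c1 * Complex.exp (((s * v1 : ℝ) : ℂ) * Complex.I) +
      c2 * Complex.exp (((s * v2 : ℝ) : ℂ) * Complex.I) +
      c3 * Complex.exp (((s * v3 : ℝ) : ℂ) * Complex.I)) (fun s hs => h s hs) ht
  have h4 := (uniqueDiffOn_Icc zero_lt_one t ht).eq_deriv _ h1 h3
  have hI : Complex.I ≠ 0 := Complex.I_ne_zero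
  apply mul_left_cancel₀ hI
  linear_combination h4

lemma eq_zero_of_sin {v : ℝ} (hv : |v| < 1) (h : Real.sin v = 0) : v = 0 := by
  have hpi := Real.pi_gt_three
  rw [abs_lt] at hv
  exact (Real.sin_eq_zero_iff_of_lt_of_lt (by linarith) (by linarith)).1 h

lemma dot_dv (v : Fin 7 → ℝ) (j : Fin 7) :
    dot (dv (fun _ => 1, v) j) (dv (fun _ => 1, v) j) = dot (D j) (D j) := by
  unfold dv dot
  simp only [Complex.ofReal_one, mul_one, Complex.mul_re, Complex.mul_im,
    Complex.exp_ofReal_mul_I_re, Complex.exp_ofReal_mul_I_im]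
  have := Real.sin_sq_add_cos_sq (v j)
  linear_combination ((D j).re ^ 2 + (D j).im ^ 2) * this

/-- No straight segment leaves the limiting configuration inside the closed region. -/
lemma no_segment {v : Fin 7 → ℝ} (h0 : v 0 = 0) (hv : ‖v‖ < 1)
    (h : ∀ t ∈ Icc (0 : ℝ) 1, Near (dv (fun _ => 1, t • v)) ∧ Cl (dv (fun _ => 1, t • v))) :
    v = 0 := by
  have hj : ∀ j, |v j| < 1 := fun j => lt_of_le_of_lt (norm_le_pi_norm v j) hv
  have L : ∀ t ∈ Icc (0 : ℝ) 1, _ := fun t ht => locked (h t ht).1 (h t ht).2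
    (by rw [dot_dv]; simp [D, dot]; norm_num) (by rw [dot_dv]; simp [D, dot]; norm_num)
    (by rw [dot_dv]; simp [D, dot]; norm_num)
  obtain ⟨a1, a2, -, a4⟩ := L 1 (by simp)
  simp only [one_smul] at a1 a2 a4
  have v5 : v 5 = 0 := by
    apply eq_zero_of_sin (hj 5)
    have := congrArg Complex.im a1
    simpa [dv, D, h0, Complex.exp_ofReal_mul_I_im] using this
  have v1 : v 1 = 0 := by
    apply eq_zero_of_sin (hj 1)
    have := congrArg Complex.im a2
    simpa [dv, D, v5, Complex.exp_ofReal_mul_I_im] using this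
  have v6 : v 6 = 0 := by
    apply eq_zero_of_sin (hj 6)
    simpa [dv, D, v5, cross, Complex.exp_ofReal_mul_I_im] using a4
  have S : ∀ t ∈ Icc (0 : ℝ) 1, (2 : ℂ) +
      (-1 - Complex.I) * Complex.exp (((t * v 2 : ℝ) : ℂ) * Complex.I) +
      (3 + 2 * Complex.I) * Complex.exp (((t * v 3 : ℝ) : ℂ) * Complex.I) +
      (-4 - Complex.I) * Complex.exp (((t * v 4 : ℝ) : ℂ) * Complex.I) = 0 := by
    intro t ht
    obtain ⟨-, -, a3, -⟩ := L t ht
    simpa [dv, D, v1] using a3
  have S1 := deriv_step S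
  have S2 := deriv_step S1
  have T1 := S1 0 (by simp)
  have T2 := S2 0 (by simp)
  have T1r := congrArg Complex.re T1
  have T1i := congrArg Complex.im T1
  have T2r := congrArg Complex.re T2
  simp at T1r T1i T2r
  have e3 : v 3 = 3 * v 4 := by linarith
  have e2 : v 2 = 5 * v 4 := by linarith
  have v4 : v 4 = 0 := by
    rw [e2, e3] at T2r
    have : v 4 ^ 2 = 0 := by nlinarith
    exact pow_eq_zero_iff (two_ne_zero) |>.1 this
  ext j
  fin_cases j <;> simp [h0, v1, v5, v6, e2, e3, v4]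

/-- The invariant persists along a free segment that stays near the limit. -/
lemma inv_along {x : St} {c : Fin 7 → ℝ} (hi : Inv (dv x))
    (hn : ∀ t ∈ Icc (0 : ℝ) 1, Near (dv (x.1, x.2 + t • c)))
    (hf : ∀ t ∈ Icc (0 : ℝ) 1, Free (dv (x.1, x.2 + t • c))) :
    ∀ t ∈ Icc (0 : ℝ) 1, Inv (dv (x.1, x.2 + t • c)) := by
  have hc : ∀ k, Continuous fun t : ℝ => g (dv (x.1, x.2 + t • c)) k := fun k =>
    (continuous_g k).comp (by fun_prop)
  have hU : IsOpen {t : ℝ | ∀ k, 0 < g (dv (x.1, x.2 + t • c)) k} := by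
    rw [Set.ofPred_forall]
    exact isOpen_iInter_of_finite fun k => isOpen_lt continuous_const (hc k)
  have hV : IsOpen {t : ℝ | ∃ k, g (dv (x.1, x.2 + t • c)) k < 0} := by
    rw [Set.ofPred_exists]
    exact isOpen_iUnion fun k => isOpen_lt (hc k) continuous_const
  have := isPreconnected_Icc (a := (0 : ℝ)) (b := 1) |>.subset_left_of_subset_union hU hV ?_ ?_ ?_
  · intro t ht; exact this ht
  · rw [Set.disjoint_left]
    rintro t h1 ⟨k, h2⟩
    exact absurd (h1 k) (not_lt.2 h2.le)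
  · intro t ht
    by_cases h : ∃ k, g (dv (x.1, x.2 + t • c)) k < 0
    · exact Or.inr h
    · left
      push Not at h
      exact inv_of_nonneg (hn t ht) (hf t ht) h
  · refine ⟨0, by simp, ?_⟩
    simpa [Inv] using hi

/-- Free segments that start close to the limit, with the invariant, end close to the limit. -/
lemma core {Q : St → Prop} (hQ : ∀ᶠ x in 𝓝 x0, Q x) :
    ∀ᶠ x in 𝓝 x0, ∀ c : Fin 7 → ℝ, c 0 = 0 → Inv (dv x) →
      (∀ t ∈ Icc (0 : ℝ) 1, Free (dv (x.1, x.2 + t • c))) →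
      Q (x.1, x.2 + c) ∧ Inv (dv (x.1, x.2 + c)) := by
  have hN : ∀ᶠ x in 𝓝 x0, Near (dv x) := by
    have : Tendsto dv (𝓝 x0) (𝓝 D) := by rw [← dv_x0]; exact continuous_dv.continuousAt
    exact this.eventually eventually_near
  obtain ⟨ε, hε, hb⟩ := Metric.eventually_nhds_iff.1 (hQ.and hN)
  set η : ℝ := min (ε / 2) (1 / 2) with hη
  have η0 : 0 < η := lt_min (by linarith) (by norm_num)
  have η1 : η ≤ ε / 2 := min_le_left _ _
  have η2 : η ≤ 1 / 2 := min_le_right _ _
  have close : ∀ x : St, dist x x0 < η → ∀ c : Fin 7 → ℝ, ‖c‖ ≤ η → ∀ t ∈ Icc (0 : ℝ) 1,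
      dist ((x.1, x.2 + t • c) : St) x0 < ε := by
    intro x hx c hc t ht
    have h1 : dist ((x.1, x.2 + t • c) : St) x ≤ η := by
      rw [Prod.dist_eq]
      simp only [dist_self, dist_self_add_left, norm_smul, Real.norm_eq_abs]
      refine max_le η0.le ?_
      have : |t| ≤ 1 := abs_le.2 ⟨by linarith [ht.1], ht.2⟩
      nlinarith [norm_nonneg c, abs_nonneg t]
    have := dist_triangle ((x.1, x.2 + t • c) : St) x x0
    linarith
  have hK : IsCompact {c : Fin 7 → ℝ | c 0 = 0 ∧ ‖c‖ = η} := by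
    refine (isCompact_sphere (0 : Fin 7 → ℝ) η).of_isClosed_subset ?_ ?_
    · exact (isClosed_eq (by fun_prop) continuous_const).inter
        (isClosed_eq (by fun_prop) continuous_const)
    · intro c hc; simpa using hc.2
  have hT : ∀ᶠ x in 𝓝 x0, ∀ c ∈ {c : Fin 7 → ℝ | c 0 = 0 ∧ ‖c‖ = η},
      ∃ t ∈ Icc (0 : ℝ) 1, ¬ Cl (dv (x.1, x.2 + t • c)) := by
    apply hK.eventually_forall_of_forall_eventually
      (P := fun (x : St) c => ∃ t ∈ Icc (0 : ℝ) 1, ¬ Cl (dv (x.1, x.2 + t • c)))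
    rintro c ⟨hc0, hc⟩
    have : ∃ t ∈ Icc (0 : ℝ) 1, ∃ k, cl (dv (x0.1, x0.2 + t • c)) k < 0 := by
      by_contra hcon
      push Not at hcon
      have : c = 0 := by
        apply no_segment hc0 (by linarith)
        intro t ht
        have h1 := (hb (close x0 (by simpa using η0) c hc.le t ht)).2
        have h2 := hcon t ht
        simp only [x0, zero_add] at h1 h2
        exact ⟨h1, h2⟩
      rw [this, norm_zero] at hc
      linarith
    obtain ⟨t, ht, k, hk⟩ := this
    have hcont : Continuous fun z : St × (Fin 7 → ℝ) => cl (dv (z.1.1, z.1.2 + t • z.2)) k :=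
      (continuous_cl k).comp (by fun_prop)
    have := hcont.continuousAt (x := (x0, c)) |>.eventually (gt_mem_nhds hk)
    filter_upwards [this] with z hz
    exact ⟨t, ht, fun h => absurd (h k) (not_le.2 hz)⟩
  filter_upwards [hT, Metric.ball_mem_nhds x0 η0] with x hx hxb c hc0 hi hf
  have hxb' : dist x x0 < η := hxb
  have hc : ‖c‖ ≤ η := by
    by_contra hcon
    push Not at hcon
    have c0 : 0 < ‖c‖ := η0.trans hcon
    have r0 : 0 ≤ η / ‖c‖ := div_nonneg η0.le c0.le
    have r1 : η / ‖c‖ ≤ 1 := (div_le_one c0).2 hcon.le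
    have hn' : ‖(η / ‖c‖) • c‖ = η := by
      rw [norm_smul, Real.norm_eq_abs, abs_of_nonneg r0]; field_simp
    obtain ⟨t, ht, hcl⟩ := hx ((η / ‖c‖) • c) ⟨by simp [hc0], hn'⟩
    have hn : ∀ t ∈ Icc (0 : ℝ) 1, Near (dv (x.1, x.2 + t • (η / ‖c‖) • c)) :=
      fun t ht => (hb (close x hxb' _ hn'.le t ht)).2
    refine hcl (cl_of_inv (hn t ht) (inv_along hi hn ?_ t ht))
    intro s hs
    rw [smul_smul]
    exact hf _ ⟨mul_nonneg hs.1 r0, mul_le_one₀ hs.2 r0 r1⟩
  have hn : ∀ t ∈ Icc (0 : ℝ) 1, Near (dv (x.1, x.2 + t • c)) :=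
    fun t ht => (hb (close x hxb' _ hc t ht)).2
  have h1 := (hb (close x hxb' _ hc 1 (by simp))).1
  have h2 := inv_along hi hn hf 1 (by simp)
  simp only [one_smul] at h1 h2
  exact ⟨h1, h2⟩

end Pool.Agent.MP_7e0f10_lc

end

section

/-! Moves of a seven-link chain are straight segments in the state space. -/

namespace Pool.Agent.MP_7e0f10_lc

open Filter Topology Set

/-- Link vectors of a configuration. -/
def lv (p : Fin (7 + 1) → ℂ) : Fin 7 → ℂ := fun j => p j.succ - p j.castSucc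

/-- The configuration `p` has, up to a similarity, the link vectors of the state `x`. -/
def Rep (p : Fin (7 + 1) → ℂ) (x : St) : Prop := ∃ w : ℂ, w ≠ 0 ∧ ∀ j, lv p j = w * dv x j

lemma free_of_simple {p : Fin (7 + 1) → ℂ} (h : IsSimple p) : Free (lv p) := by
  obtain ⟨h0, h1, h2⟩ := h
  have L : ∀ i j : Fin 7, i.val + 1 < j.val → p i.castSucc ∉ link p j := fun i j hij =>
    Set.disjoint_left.1 (h2 i j hij) (left_mem_segment _ _ _)
  have R : ∀ i j : Fin 7, i.val + 1 < j.val → p j.succ ∉ link p i := fun i j hij =>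
    Set.disjoint_right.1 (h2 i j hij) (right_mem_segment _ _ _)
  have L' : ∀ i j : Fin 7, i.val + 1 < j.val → p i.succ ∉ link p j := fun i j hij =>
    Set.disjoint_left.1 (h2 i j hij) (right_mem_segment _ _ _)
  have m1 : p 7 ∉ segment ℝ (p 6) (p 5) := by
    intro hm
    have := h1 5 6 rfl ⟨by rw [segment_symm] at hm; exact hm, right_mem_segment _ _ _⟩
    have h7 := h0 6
    rw [Set.mem_singleton_iff] at this
    unfold linkLength at h7
    have e : p (Fin.succ 6) = p (Fin.castSucc 6) := this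
    rw [e, dist_self] at h7
    exact lt_irrefl _ h7
  have m2 : p 0 ∉ segment ℝ (p 6) (p 7) := L 0 6 (by decide)
  have m3 : p 0 ∉ segment ℝ (p 6) (p 5) := by rw [segment_symm]; exact L 0 5 (by decide)
  have m4 : p 1 ∉ segment ℝ (p 5) (p 6) := L' 0 5 (by decide)
  have m5 : p 1 ∉ segment ℝ (p 5) (p 4) := by rw [segment_symm]; exact L' 0 4 (by decide)
  have m6 : p 6 ∉ segment ℝ (p 2) (p 1) := by rw [segment_symm]; exact R 1 5 (by decide)
  have m7 : p 6 ∉ segment ℝ (p 2) (p 3) := R 2 5 (by decide)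
  have m8 : p 7 ∉ segment ℝ (p 1) (p 2) := R 1 6 (by decide)
  have e0 : lv p 0 = p 1 - p 0 := rfl
  have e1 : lv p 1 = p 2 - p 1 := rfl
  have e2 : lv p 2 = p 3 - p 2 := rfl
  have e3 : lv p 3 = p 4 - p 3 := rfl
  have e4 : lv p 4 = p 5 - p 4 := rfl
  have e5 : lv p 5 = p 6 - p 5 := rfl
  have e6 : lv p 6 = p 7 - p 6 := rfl
  refine ⟨?_, ?_, ?_, ?_, ?_, ?_, ?_, ?_⟩
  · convert off_of_not_mem m1 using 1; rw [e5]; ring
  · convert off_of_not_mem m2 using 1; unfold t6; rw [e0, e1, e2, e3, e4, e5]; ring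
  · convert off_of_not_mem m3 using 1
    · unfold t6; rw [e0, e1, e2, e3, e4, e5]; ring
    · rw [e5]; ring
  · convert off_of_not_mem m4 using 1; unfold t5; rw [e1, e2, e3, e4]; ring
  · convert off_of_not_mem m5 using 1
    · unfold t5; rw [e1, e2, e3, e4]; ring
    · rw [e4]; ring
  · convert off_of_not_mem m6 using 1
    · unfold t2; rw [e2, e3, e4, e5]; ring
    · rw [e1]; ring
  · convert off_of_not_mem m7 using 1; unfold t2; rw [e2, e3, e4, e5]; ring
  · convert off_of_not_mem m8 using 1; unfold t1; rw [e1, e2, e3, e4, e5, e6]; ring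

lemma not_straight {p : Fin (7 + 1) → ℂ} {x : St} (hr : Rep p x) (hn : Near (dv x)) :
    ¬ IsStraight p := by
  intro hs
  obtain ⟨w, hw, hr⟩ := hr
  have h := hs 5 6 rfl
  unfold jointAngle at h
  rw [Complex.arg_coe_angle_eq_iff_eq_toReal, Real.Angle.toReal_pi, Complex.arg_eq_pi_iff] at h
  have e5 : p (Fin.castSucc 5) - p (Fin.succ 5) = w * (-dv x 5) := by
    have := hr 5; unfold lv at this; linear_combination (-1 : ℂ) * this
  have e6 : p (Fin.succ 6) - p (Fin.succ 5) = w * dv x 6 := hr 6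
  rw [e5, e6, mul_div_mul_left _ _ hw, Complex.div_re] at h
  have n0 := hn 0
  simp only [nr, Matrix.cons_val] at n0
  unfold dot at n0
  have : 0 ≤ (dv x 6).re * (-dv x 5).re / Complex.normSq (-dv x 5) +
      (dv x 6).im * (-dv x 5).im / Complex.normSq (-dv x 5) := by
    rw [← add_div]
    exact div_nonneg (by linarith) (Complex.normSq_nonneg _)
  linarith [h.1]

lemma eq_of_angle {e f : ℂ} {θ : ℝ} (he : e ≠ 0)
    (h : ((Complex.arg (f / (-e)) : ℝ) : Real.Angle) = (θ : Real.Angle)) :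
    f = -e * ((‖f‖ / ‖e‖ : ℝ) : ℂ) * Complex.exp ((θ : ℂ) * Complex.I) := by
  have h1 := Complex.norm_mul_exp_arg_mul_I (f / (-e))
  have hc := congrArg Real.Angle.cos h
  have hs := congrArg Real.Angle.sin h
  rw [Real.Angle.cos_coe, Real.Angle.cos_coe] at hc
  rw [Real.Angle.sin_coe, Real.Angle.sin_coe] at hs
  have h2 : Complex.exp (((f / (-e)).arg : ℂ) * Complex.I) = Complex.exp ((θ : ℂ) * Complex.I) := by
    apply Complex.ext
    · rw [Complex.exp_ofReal_mul_I_re, Complex.exp_ofReal_mul_I_re, hc]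
    · rw [Complex.exp_ofReal_mul_I_im, Complex.exp_ofReal_mul_I_im, hs]
  rw [h2, norm_div, norm_neg] at h1
  rw [mul_assoc, h1]
  field_simp

lemma angle_step {e f e' f' w : ℂ} {a b c t : ℝ} (he : e ≠ 0) (hee : ‖e'‖ = ‖e‖)
    (hff : ‖f'‖ = ‖f‖)
    (h0 : ((Complex.arg (f / (-e)) : ℝ) : Real.Angle) = ((a + b * 0 : ℝ) : Real.Angle))
    (h1 : ((Complex.arg (f' / (-e')) : ℝ) : Real.Angle) = ((a + b * t : ℝ) : Real.Angle))
    (hw : e' = w * e * Complex.exp (((t * c : ℝ) : ℂ) * Complex.I)) :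
    f' = w * f * Complex.exp (((t * (c + b) : ℝ) : ℂ) * Complex.I) := by
  have he' : e' ≠ 0 := by
    rw [← norm_ne_zero_iff, hee, norm_ne_zero_iff]; exact he
  have k0 := eq_of_angle he h0
  have k1 := eq_of_angle he' h1
  rw [hee, hff] at k1
  have x1 : Complex.exp (((t * c : ℝ) : ℂ) * Complex.I) *
      Complex.exp (((a + b * t : ℝ) : ℂ) * Complex.I) =
      Complex.exp (((a + b * 0 : ℝ) : ℂ) * Complex.I) *
      Complex.exp (((t * (c + b) : ℝ) : ℂ) * Complex.I) := by
    rw [← Complex.exp_add, ← Complex.exp_add]; congr 1; push_cast; ring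
  generalize ((‖f‖ / ‖e‖ : ℝ) : ℂ) = r at k0 k1
  rw [k1, k0, hw]
  linear_combination (-(w * e * r)) * x1

lemma move_segment {p q : Fin (7 + 1) → ℂ} {x : St} (hr : Rep p x) (hm : IsMove p q) :
    ∃ c : Fin 7 → ℝ, c 0 = 0 ∧ Rep q (x.1, x.2 + c) ∧
      ∀ t ∈ Icc (0 : ℝ) 1, Free (dv (x.1, x.2 + t • c)) := by
  obtain ⟨γ, -, g0, g1, hs, ha⟩ := hm
  obtain ⟨w, hw, hr⟩ := hr
  have len : ∀ t ∈ Icc (0 : ℝ) 1, ∀ j, ‖lv (γ t) j‖ = ‖lv p j‖ := by
    intro t ht j
    have := (hs t ht).2 j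
    unfold linkLength at this
    rw [dist_comm, dist_eq_norm, dist_comm, dist_eq_norm] at this
    exact this
  have ne : ∀ j, lv p j ≠ 0 := by
    intro j
    have := (hs 0 (by simp)).1.1 j
    rw [g0] at this
    unfold linkLength at this
    rw [dist_comm, dist_eq_norm, norm_pos_iff] at this
    exact this
  have ang : ∀ i j : Fin 7, i.val + 1 = j.val → ∃ b : ℝ, ∀ t ∈ Icc (0 : ℝ) 1, ∀ (u : ℂ) (c : ℝ),
      lv (γ t) i = u * lv p i * Complex.exp (((t * c : ℝ) : ℂ) * Complex.I) →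
      lv (γ t) j = u * lv p j * Complex.exp (((t * (c + b) : ℝ) : ℂ) * Complex.I) := by
    intro i j hij
    obtain ⟨a, b, hab⟩ := ha i j hij
    have e : i.succ = j.castSucc := by ext; simpa using hij
    have form : ∀ r : Fin (7 + 1) → ℂ,
        jointAngle r i j = ((Complex.arg (lv r j / (-lv r i)) : ℝ) : Real.Angle) := by
      intro r
      unfold jointAngle lv
      rw [neg_sub, e]
    refine ⟨b, fun t ht u c hu => ?_⟩
    have h0 := hab 0 (by simp)
    have h1 := hab t ht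
    rw [form] at h0 h1
    rw [g0] at h0
    exact angle_step (ne i) (len t ht i) (len t ht j) h0 h1 hu
  obtain ⟨b0, k0⟩ := ang 0 1 rfl
  obtain ⟨b1, k1⟩ := ang 1 2 rfl
  obtain ⟨b2, k2⟩ := ang 2 3 rfl
  obtain ⟨b3, k3⟩ := ang 3 4 rfl
  obtain ⟨b4, k4⟩ := ang 4 5 rfl
  obtain ⟨b5, k5⟩ := ang 5 6 rfl
  set c : Fin 7 → ℝ := ![0, 0 + b0, 0 + b0 + b1, 0 + b0 + b1 + b2, 0 + b0 + b1 + b2 + b3,
    0 + b0 + b1 + b2 + b3 + b4, 0 + b0 + b1 + b2 + b3 + b4 + b5] with hc
  have key : ∀ t ∈ Icc (0 : ℝ) 1, Rep (γ t) (x.1, x.2 + t • c) := by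
    intro t ht
    set u : ℂ := lv (γ t) 0 / lv p 0 with hu
    have u0 : u ≠ 0 := by
      refine div_ne_zero ?_ (ne 0)
      rw [← norm_ne_zero_iff, len t ht, norm_ne_zero_iff]; exact ne 0
    have j0 : lv (γ t) 0 = u * lv p 0 * Complex.exp (((t * 0 : ℝ) : ℂ) * Complex.I) := by
      rw [hu, div_mul_cancel₀ _ (ne 0)]; simp
    have j1 := k0 t ht u _ j0
    have j2 := k1 t ht u _ j1
    have j3 := k2 t ht u _ j2
    have j4 := k3 t ht u _ j3
    have j5 := k4 t ht u _ j4
    have j6 := k5 t ht u _ j5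
    have jj : ∀ j, lv (γ t) j = u * lv p j * Complex.exp (((t * c j : ℝ) : ℂ) * Complex.I) := by
      intro j
      fin_cases j
      exacts [j0, j1, j2, j3, j4, j5, j6]
    refine ⟨u * w, mul_ne_zero u0 hw, fun j => ?_⟩
    rw [jj j, hr j]
    unfold dv
    simp only [Pi.add_apply, Pi.smul_apply, smul_eq_mul]
    have : Complex.exp (((x.2 j + t * c j : ℝ) : ℂ) * Complex.I) =
        Complex.exp ((x.2 j : ℂ) * Complex.I) * Complex.exp (((t * c j : ℝ) : ℂ) * Complex.I) := by
      rw [← Complex.exp_add]; congr 1; push_cast; ring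
    rw [this]; ring
  refine ⟨c, rfl, ?_, fun t ht => ?_⟩
  · have := key 1 (by simp)
    rwa [g1, one_smul] at this
  · obtain ⟨u, -, hu⟩ := key t ht
    have := free_of_simple (hs t ht).1
    rw [show lv (γ t) = fun j => u * dv (x.1, x.2 + t • c) j from funext hu] at this
    exact this.of_mul

/-- Close enough to the limit, `N` moves do not straighten the chain. -/
lemma stuck (N : ℕ) : ∀ᶠ x in 𝓝 x0, Inv (dv x) → ∀ p, Rep p x → ∀ m ≤ N, ¬ StraightensIn p m := by
  have hN : ∀ᶠ x in 𝓝 x0, Near (dv x) := by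
    have : Tendsto dv (𝓝 x0) (𝓝 D) := by rw [← dv_x0]; exact continuous_dv.continuousAt
    exact this.eventually eventually_near
  have zero : ∀ x, Near (dv x) → ∀ p, Rep p x → ¬ StraightensIn p 0 := by
    rintro x hx p hp ⟨c, c0, -, cs⟩
    rw [c0] at cs
    exact not_straight hp hx cs
  induction N with
  | zero =>
    filter_upwards [hN] with x hx _ p hp m hm
    rw [Nat.le_zero.1 hm]
    exact zero x hx p hp
  | succ N ih =>
    filter_upwards [hN, core ih] with x hx hcore hi p hp m hm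
    rcases m with _ | m
    · exact zero x hx p hp
    · rintro ⟨c, c0, cm, cs⟩
      have hmove := cm 0 (Nat.succ_pos _)
      rw [c0] at hmove
      obtain ⟨v, v0, hq, hf⟩ := move_segment hp hmove
      obtain ⟨h1, h2⟩ := hcore v v0 hi hf
      refine h1 h2 _ hq m (by omega) ⟨fun k => c (k + 1), rfl, fun k hk => cm (k + 1) (by omega), cs⟩

end Pool.Agent.MP_7e0f10_lc

end

section

/-! The tight simple configurations and the main theorem. -/

set_option linter.unusedSectionVars false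

namespace Pool.Agent.MP_7e0f10_lc

open Filter Topology Set

/-- The tight configurations. -/
noncomputable def cfg (e : ℝ) : Fin (7 + 1) → ℂ :=
  ![⟨2 - e, e ^ 2⟩, ⟨8 * e, e⟩, ⟨2 + 8 * e, 4 * e⟩, ⟨1, -1⟩, ⟨4, 1⟩, ⟨0, 0⟩, ⟨2, 0⟩, ⟨1, 2 * e⟩]

section
variable {e : ℝ} (h0 : 0 < e) (h1 : e < 1 / 100)
include h0 h1

lemma cr_0_1_2 : cross (cfg e 1 - cfg e 0) (cfg e 2 - cfg e 0) < 0 := by
  simp only [cfg, cross, Matrix.cons_val, Complex.sub_re, Complex.sub_im]
  nlinarith [mul_pos h0 h0, mul_pos h0 (mul_pos h0 h0), mul_lt_mul_of_pos_left h1 h0,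
    mul_lt_mul_of_pos_left h1 (mul_pos h0 h0)]

lemma cr_2_3_0 : cross (cfg e 3 - cfg e 2) (cfg e 0 - cfg e 2) < 0 := by
  simp only [cfg, cross, Matrix.cons_val, Complex.sub_re, Complex.sub_im]
  nlinarith [mul_pos h0 h0, mul_pos h0 (mul_pos h0 h0), mul_lt_mul_of_pos_left h1 h0,
    mul_lt_mul_of_pos_left h1 (mul_pos h0 h0)]

lemma cr_2_3_1 : cross (cfg e 3 - cfg e 2) (cfg e 1 - cfg e 2) < 0 := by
  simp only [cfg, cross, Matrix.cons_val, Complex.sub_re, Complex.sub_im]
  nlinarith [mul_pos h0 h0, mul_pos h0 (mul_pos h0 h0), mul_lt_mul_of_pos_left h1 h0,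
    mul_lt_mul_of_pos_left h1 (mul_pos h0 h0)]

lemma cr_3_4_0 : 0 < cross (cfg e 4 - cfg e 3) (cfg e 0 - cfg e 3) := by
  simp only [cfg, cross, Matrix.cons_val, Complex.sub_re, Complex.sub_im]
  nlinarith [mul_pos h0 h0, mul_pos h0 (mul_pos h0 h0), mul_lt_mul_of_pos_left h1 h0,
    mul_lt_mul_of_pos_left h1 (mul_pos h0 h0)]

lemma cr_3_4_1 : 0 < cross (cfg e 4 - cfg e 3) (cfg e 1 - cfg e 3) := by
  simp only [cfg, cross, Matrix.cons_val, Complex.sub_re, Complex.sub_im]
  nlinarith [mul_pos h0 h0, mul_pos h0 (mul_pos h0 h0), mul_lt_mul_of_pos_left h1 h0,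
    mul_lt_mul_of_pos_left h1 (mul_pos h0 h0)]

lemma cr_4_5_0 : 0 < cross (cfg e 5 - cfg e 4) (cfg e 0 - cfg e 4) := by
  simp only [cfg, cross, Matrix.cons_val, Complex.sub_re, Complex.sub_im]
  nlinarith [mul_pos h0 h0, mul_pos h0 (mul_pos h0 h0), mul_lt_mul_of_pos_left h1 h0,
    mul_lt_mul_of_pos_left h1 (mul_pos h0 h0)]

lemma cr_4_5_1 : 0 < cross (cfg e 5 - cfg e 4) (cfg e 1 - cfg e 4) := by
  simp only [cfg, cross, Matrix.cons_val, Complex.sub_re, Complex.sub_im]
  nlinarith [mul_pos h0 h0, mul_pos h0 (mul_pos h0 h0), mul_lt_mul_of_pos_left h1 h0,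
    mul_lt_mul_of_pos_left h1 (mul_pos h0 h0)]

lemma cr_0_1_5 : 0 < cross (cfg e 1 - cfg e 0) (cfg e 5 - cfg e 0) := by
  simp only [cfg, cross, Matrix.cons_val, Complex.sub_re, Complex.sub_im]
  nlinarith [mul_pos h0 h0, mul_pos h0 (mul_pos h0 h0), mul_lt_mul_of_pos_left h1 h0,
    mul_lt_mul_of_pos_left h1 (mul_pos h0 h0)]

lemma cr_0_1_6 : 0 < cross (cfg e 1 - cfg e 0) (cfg e 6 - cfg e 0) := by
  simp only [cfg, cross, Matrix.cons_val, Complex.sub_re, Complex.sub_im]
  nlinarith [mul_pos h0 h0, mul_pos h0 (mul_pos h0 h0), mul_lt_mul_of_pos_left h1 h0,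
    mul_lt_mul_of_pos_left h1 (mul_pos h0 h0)]

lemma cr_6_7_0 : 0 < cross (cfg e 7 - cfg e 6) (cfg e 0 - cfg e 6) := by
  simp only [cfg, cross, Matrix.cons_val, Complex.sub_re, Complex.sub_im]
  nlinarith [mul_pos h0 h0, mul_pos h0 (mul_pos h0 h0), mul_lt_mul_of_pos_left h1 h0,
    mul_lt_mul_of_pos_left h1 (mul_pos h0 h0)]

lemma cr_6_7_1 : 0 < cross (cfg e 7 - cfg e 6) (cfg e 1 - cfg e 6) := by
  simp only [cfg, cross, Matrix.cons_val, Complex.sub_re, Complex.sub_im]
  nlinarith [mul_pos h0 h0, mul_pos h0 (mul_pos h0 h0), mul_lt_mul_of_pos_left h1 h0,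
    mul_lt_mul_of_pos_left h1 (mul_pos h0 h0)]

lemma cr_1_2_3 : cross (cfg e 2 - cfg e 1) (cfg e 3 - cfg e 1) < 0 := by
  simp only [cfg, cross, Matrix.cons_val, Complex.sub_re, Complex.sub_im]
  nlinarith [mul_pos h0 h0, mul_pos h0 (mul_pos h0 h0), mul_lt_mul_of_pos_left h1 h0,
    mul_lt_mul_of_pos_left h1 (mul_pos h0 h0)]

lemma cr_3_4_2 : 0 < cross (cfg e 4 - cfg e 3) (cfg e 2 - cfg e 3) := by
  simp only [cfg, cross, Matrix.cons_val, Complex.sub_re, Complex.sub_im]
  nlinarith [mul_pos h0 h0, mul_pos h0 (mul_pos h0 h0), mul_lt_mul_of_pos_left h1 h0,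
    mul_lt_mul_of_pos_left h1 (mul_pos h0 h0)]

lemma cr_4_5_2 : 0 < cross (cfg e 5 - cfg e 4) (cfg e 2 - cfg e 4) := by
  simp only [cfg, cross, Matrix.cons_val, Complex.sub_re, Complex.sub_im]
  nlinarith [mul_pos h0 h0, mul_pos h0 (mul_pos h0 h0), mul_lt_mul_of_pos_left h1 h0,
    mul_lt_mul_of_pos_left h1 (mul_pos h0 h0)]

lemma cr_1_2_5 : cross (cfg e 2 - cfg e 1) (cfg e 5 - cfg e 1) < 0 := by
  simp only [cfg, cross, Matrix.cons_val, Complex.sub_re, Complex.sub_im]
  nlinarith [mul_pos h0 h0, mul_pos h0 (mul_pos h0 h0), mul_lt_mul_of_pos_left h1 h0,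
    mul_lt_mul_of_pos_left h1 (mul_pos h0 h0)]

lemma cr_1_2_6 : cross (cfg e 2 - cfg e 1) (cfg e 6 - cfg e 1) < 0 := by
  simp only [cfg, cross, Matrix.cons_val, Complex.sub_re, Complex.sub_im]
  nlinarith [mul_pos h0 h0, mul_pos h0 (mul_pos h0 h0), mul_lt_mul_of_pos_left h1 h0,
    mul_lt_mul_of_pos_left h1 (mul_pos h0 h0)]

lemma cr_1_2_7 : cross (cfg e 2 - cfg e 1) (cfg e 7 - cfg e 1) < 0 := by
  simp only [cfg, cross, Matrix.cons_val, Complex.sub_re, Complex.sub_im]
  nlinarith [mul_pos h0 h0, mul_pos h0 (mul_pos h0 h0), mul_lt_mul_of_pos_left h1 h0,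
    mul_lt_mul_of_pos_left h1 (mul_pos h0 h0)]

lemma cr_2_3_4 : 0 < cross (cfg e 3 - cfg e 2) (cfg e 4 - cfg e 2) := by
  simp only [cfg, cross, Matrix.cons_val, Complex.sub_re, Complex.sub_im]
  nlinarith [mul_pos h0 h0, mul_pos h0 (mul_pos h0 h0), mul_lt_mul_of_pos_left h1 h0,
    mul_lt_mul_of_pos_left h1 (mul_pos h0 h0)]

lemma cr_4_5_3 : 0 < cross (cfg e 5 - cfg e 4) (cfg e 3 - cfg e 4) := by
  simp only [cfg, cross, Matrix.cons_val, Complex.sub_re, Complex.sub_im]
  nlinarith [mul_pos h0 h0, mul_pos h0 (mul_pos h0 h0), mul_lt_mul_of_pos_left h1 h0,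
    mul_lt_mul_of_pos_left h1 (mul_pos h0 h0)]

lemma cr_2_3_5 : cross (cfg e 3 - cfg e 2) (cfg e 5 - cfg e 2) < 0 := by
  simp only [cfg, cross, Matrix.cons_val, Complex.sub_re, Complex.sub_im]
  nlinarith [mul_pos h0 h0, mul_pos h0 (mul_pos h0 h0), mul_lt_mul_of_pos_left h1 h0,
    mul_lt_mul_of_pos_left h1 (mul_pos h0 h0)]

lemma cr_2_3_6 : cross (cfg e 3 - cfg e 2) (cfg e 6 - cfg e 2) < 0 := by
  simp only [cfg, cross, Matrix.cons_val, Complex.sub_re, Complex.sub_im]
  nlinarith [mul_pos h0 h0, mul_pos h0 (mul_pos h0 h0), mul_lt_mul_of_pos_left h1 h0,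
    mul_lt_mul_of_pos_left h1 (mul_pos h0 h0)]

lemma cr_2_3_7 : cross (cfg e 3 - cfg e 2) (cfg e 7 - cfg e 2) < 0 := by
  simp only [cfg, cross, Matrix.cons_val, Complex.sub_re, Complex.sub_im]
  nlinarith [mul_pos h0 h0, mul_pos h0 (mul_pos h0 h0), mul_lt_mul_of_pos_left h1 h0,
    mul_lt_mul_of_pos_left h1 (mul_pos h0 h0)]

lemma cr_3_4_5 : 0 < cross (cfg e 4 - cfg e 3) (cfg e 5 - cfg e 3) := by
  simp only [cfg, cross, Matrix.cons_val, Complex.sub_re, Complex.sub_im]
  nlinarith [mul_pos h0 h0, mul_pos h0 (mul_pos h0 h0), mul_lt_mul_of_pos_left h1 h0,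
    mul_lt_mul_of_pos_left h1 (mul_pos h0 h0)]

lemma cr_3_4_6 : 0 < cross (cfg e 4 - cfg e 3) (cfg e 6 - cfg e 3) := by
  simp only [cfg, cross, Matrix.cons_val, Complex.sub_re, Complex.sub_im]
  nlinarith [mul_pos h0 h0, mul_pos h0 (mul_pos h0 h0), mul_lt_mul_of_pos_left h1 h0,
    mul_lt_mul_of_pos_left h1 (mul_pos h0 h0)]

lemma cr_3_4_7 : 0 < cross (cfg e 4 - cfg e 3) (cfg e 7 - cfg e 3) := by
  simp only [cfg, cross, Matrix.cons_val, Complex.sub_re, Complex.sub_im]
  nlinarith [mul_pos h0 h0, mul_pos h0 (mul_pos h0 h0), mul_lt_mul_of_pos_left h1 h0,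
    mul_lt_mul_of_pos_left h1 (mul_pos h0 h0)]

lemma cr_4_5_6 : 0 < cross (cfg e 5 - cfg e 4) (cfg e 6 - cfg e 4) := by
  simp only [cfg, cross, Matrix.cons_val, Complex.sub_re, Complex.sub_im]
  nlinarith [mul_pos h0 h0, mul_pos h0 (mul_pos h0 h0), mul_lt_mul_of_pos_left h1 h0,
    mul_lt_mul_of_pos_left h1 (mul_pos h0 h0)]

lemma cr_4_5_7 : 0 < cross (cfg e 5 - cfg e 4) (cfg e 7 - cfg e 4) := by
  simp only [cfg, cross, Matrix.cons_val, Complex.sub_re, Complex.sub_im]
  nlinarith [mul_pos h0 h0, mul_pos h0 (mul_pos h0 h0), mul_lt_mul_of_pos_left h1 h0,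
    mul_lt_mul_of_pos_left h1 (mul_pos h0 h0)]

lemma cr_5_6_7 : 0 < cross (cfg e 6 - cfg e 5) (cfg e 7 - cfg e 5) := by
  simp only [cfg, cross, Matrix.cons_val, Complex.sub_re, Complex.sub_im]
  nlinarith [mul_pos h0 h0, mul_pos h0 (mul_pos h0 h0), mul_lt_mul_of_pos_left h1 h0,
    mul_lt_mul_of_pos_left h1 (mul_pos h0 h0)]

lemma cfg_simple : IsSimple (cfg e) := by
  have adj : ∀ i j : Fin 7, i.val + 1 = j.val →
      link (cfg e) i ∩ link (cfg e) j ⊆ {cfg e i.succ} := by
    intro i j hij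
    fin_cases i <;> fin_cases j <;> simp only [Nat.reduceAdd, OfNat.ofNat_ne_one, Nat.reduceEqDiff, zero_add, one_ne_zero] at hij
    · exact inter_subset_of_cross (cr_0_1_2 h0 h1).ne
    · exact inter_subset_of_cross (cr_1_2_3 h0 h1).ne
    · exact inter_subset_of_cross (cr_2_3_4 h0 h1).ne'
    · exact inter_subset_of_cross (cr_3_4_5 h0 h1).ne'
    · exact inter_subset_of_cross (cr_4_5_6 h0 h1).ne'
    · exact inter_subset_of_cross (cr_5_6_7 h0 h1).ne'
  refine ⟨?_, adj, ?_⟩
  · intro i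
    unfold linkLength
    rw [dist_pos]
    intro h
    have hre := congrArg Complex.re h
    fin_cases i <;> simp [cfg] at hre <;> linarith
  · intro i j hij
    fin_cases i <;> fin_cases j <;> simp only [Nat.reduceAdd, Nat.reduceLT, zero_add, lt_self_iff_false, Nat.not_lt_zero] at hij
    · exact (disjoint_of_side (mul_pos_of_neg_of_neg (cr_2_3_0 h0 h1) (cr_2_3_1 h0 h1))).symm
    · exact (disjoint_of_side (mul_pos (cr_3_4_0 h0 h1) (cr_3_4_1 h0 h1))).symm
    · exact (disjoint_of_side (mul_pos (cr_4_5_0 h0 h1) (cr_4_5_1 h0 h1))).symm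
    · exact (disjoint_of_side (mul_pos (cr_0_1_5 h0 h1) (cr_0_1_6 h0 h1)))
    · exact (disjoint_of_side (mul_pos (cr_6_7_0 h0 h1) (cr_6_7_1 h0 h1))).symm
    · exact (disjoint_of_side (mul_pos (cr_3_4_1 h0 h1) (cr_3_4_2 h0 h1))).symm
    · exact (disjoint_of_side (mul_pos (cr_4_5_1 h0 h1) (cr_4_5_2 h0 h1))).symm
    · exact (disjoint_of_side (mul_pos_of_neg_of_neg (cr_1_2_5 h0 h1) (cr_1_2_6 h0 h1)))
    · exact (disjoint_of_side (mul_pos_of_neg_of_neg (cr_1_2_6 h0 h1) (cr_1_2_7 h0 h1)))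
    · exact (disjoint_of_side (mul_pos (cr_4_5_2 h0 h1) (cr_4_5_3 h0 h1))).symm
    · exact (disjoint_of_side (mul_pos_of_neg_of_neg (cr_2_3_5 h0 h1) (cr_2_3_6 h0 h1)))
    · exact (disjoint_of_side (mul_pos_of_neg_of_neg (cr_2_3_6 h0 h1) (cr_2_3_7 h0 h1)))
    · exact (disjoint_of_side (mul_pos (cr_3_4_5 h0 h1) (cr_3_4_6 h0 h1)))
    · exact (disjoint_of_side (mul_pos (cr_3_4_6 h0 h1) (cr_3_4_7 h0 h1)))
    · exact (disjoint_of_side (mul_pos (cr_4_5_6 h0 h1) (cr_4_5_7 h0 h1)))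

lemma cfg_inv : Inv (lv (cfg e)) := by
  intro k
  fin_cases k <;>
    simp [g, lv, t1, t2, t5, t6, cfg, cross] <;>
    nlinarith [mul_pos h0 h0, mul_pos h0 (mul_pos h0 h0), mul_lt_mul_of_pos_left h1 h0,
      mul_lt_mul_of_pos_left h1 (mul_pos h0 h0)]

end

lemma D_ne (j : Fin 7) : D j ≠ 0 := by
  intro h
  have := congrArg Complex.re h
  fin_cases j <;> simp [D] at this

/-- The state of the tight configuration. -/
noncomputable def st (e : ℝ) : St :=
  (fun j => ‖lv (cfg e) j / D j‖, fun j => Complex.arg (lv (cfg e) j / D j))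

lemma dv_st (e : ℝ) : dv (st e) = lv (cfg e) := by
  ext j
  unfold dv st
  simp only
  rw [mul_assoc, Complex.norm_mul_exp_arg_mul_I, mul_div_cancel₀ _ (D_ne j)]

lemma continuous_cfg (k : Fin (7 + 1)) : Continuous fun e => cfg e k := by
  have key : ∀ f g : ℝ → ℝ, Continuous f → Continuous g →
      Continuous fun e => (⟨f e, g e⟩ : ℂ) := by
    intro f g hf hg
    have : (fun e => (⟨f e, g e⟩ : ℂ)) = fun e => (f e : ℂ) + (g e : ℂ) * Complex.I := by
      ext e; exact Complex.mk_eq_add_mul_I _ _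
    rw [this]; fun_prop
  fin_cases k <;> simp only [cfg, Fin.zero_eta, Fin.mk_one, Fin.reduceFinMk, Matrix.cons_val] <;>
    exact key _ _ (by fun_prop) (by fun_prop)

lemma lv_cfg_zero (j : Fin 7) : lv (cfg 0) j = D j := by
  fin_cases j <;> apply Complex.ext <;> simp [lv, cfg, D] <;> norm_num

lemma tendsto_st : Tendsto st (𝓝 0) (𝓝 x0) := by
  have h : ∀ j, Tendsto (fun e => lv (cfg e) j / D j) (𝓝 0) (𝓝 1) := by
    intro j
    have hc : Continuous fun e => lv (cfg e) j / D j :=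
      ((continuous_cfg _).sub (continuous_cfg _)).div_const _
    have := hc.tendsto 0
    rwa [lv_cfg_zero, div_self (D_ne j)] at this
  refine Tendsto.prodMk_nhds (tendsto_pi_nhds.2 fun j => ?_) (tendsto_pi_nhds.2 fun j => ?_)
  · simpa using (h j).norm
  · have := (Complex.continuousAt_arg (x := 1) (by simp)).tendsto.comp (h j)
    simpa [Function.comp_def] using this

/-- For seven links the number of moves needed is unbounded. -/
theorem unbounded_moves (N : ℕ) :
    ∃ p : Fin (7 + 1) → ℂ, IsSimple p ∧ ∀ m, StraightensIn p m → N < m := by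
  have h1 := (tendsto_st.eventually (stuck N)).filter_mono (nhdsWithin_le_nhds (s := Ioi 0))
  have h2 : ∀ᶠ e in 𝓝[>] (0 : ℝ), e ∈ Ioo (0 : ℝ) (1 / 100) :=
    Ioo_mem_nhdsGT (by norm_num)
  obtain ⟨e, he, he0, he1⟩ := (h1.and h2).exists
  refine ⟨cfg e, cfg_simple he0 he1, fun m hm => ?_⟩
  by_contra hcon
  refine he (by rw [dv_st]; exact cfg_inv he0 he1) (cfg e) ⟨1, one_ne_zero, fun j => ?_⟩ m
    (not_lt.1 hcon) hm
  rw [dv_st, one_mul]

end Pool.Agent.MP_7e0f10_lc

end
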